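import Pool.Agent.H317.GR.StmC

/-!
# Project GR, task C10 (helper401): `S_NILP`
-/

set_option autoImplicit false

namespace Pool.Agent.H401.GR

open Matrix Module Pool.Agent.H317.GR
open scoped commutatorElement

theorem lc_map {G H : Type} [Group G] [Group H] (f : G →* H) (x : ℕ → G) (k : ℕ) :
    f (LC x k) = LC (fun i => f (x i)) k := by
  induction k with
  | zero => rfl
  | succ k ih =>
    show f ⁅LC x k, x (k + 1)⁆ = ⁅LC (fun i => f (x i)) k, f (x (k + 1))⁆
    rw [map_commutatorElement, ih]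

theorem sub_lcs {G : Type} [Group G] (H : Subgroup G) (n : ℕ)
    (h : (⊤ : Subgroup G).lowerCentralSeries n = ⊥) :
    (⊤ : Subgroup H).lowerCentralSeries n = ⊥ := by
  rw [← Subgroup.map_subtype_inj, Subgroup.map_bot, Subgroup.top_subtype_lowerCentralSeries,
    eq_bot_iff, ← h]
  exact Subgroup.lowerCentralSeries_mono n le_top

section

variable {K V : Type} [Field K] [AddCommGroup V] [Module K V] [FiniteDimensional K V]

theorem pow_fix (T : Module.End K V) {E : ℕ} {v : V} (h : (T ^ E) v = v) (k : ℕ) :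
    (T ^ (E * k)) v = v := by
  induction k with
  | zero => rw [Nat.mul_zero, pow_zero, Module.End.one_apply]
  | succ k ih => rw [Nat.mul_succ, pow_add, Module.End.mul_apply, h, ih]

theorem exists_pow_fix (T : Module.End K V) (W : K → Submodule K V) (hW : ⨆ l, W l = ⊤)
    (h : ∀ l, ∀ v ∈ W l, ∃ E : ℕ, 0 < E ∧ (T ^ E) v = v) : ∃ E : ℕ, 0 < E ∧ T ^ E = 1 := by
  let U : Submodule K V :=
    { carrier := {v | ∃ E : ℕ, 0 < E ∧ (T ^ E) v = v}
      add_mem' := by
        rintro a b ⟨E₁, h1, h1'⟩ ⟨E₂, h2, h2'⟩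
        refine ⟨E₁ * E₂, Nat.mul_pos h1 h2, ?_⟩
        rw [map_add, pow_fix T h1', mul_comm E₁ E₂, pow_fix T h2']
      zero_mem' := ⟨1, Nat.one_pos, map_zero _⟩
      smul_mem' := by
        rintro c a ⟨E, h1, h1'⟩
        exact ⟨E, h1, by rw [map_smul, h1']⟩ }
  have hU : U = ⊤ := by
    rw [eq_top_iff, ← hW]
    exact iSup_le fun l v hv => h l v hv
  have h2 : ∀ i, ∃ E : ℕ, 0 < E ∧ (T ^ E) (Module.finBasis K V i) = Module.finBasis K V i := by
    intro i
    have h3 : Module.finBasis K V i ∈ U := by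
      rw [hU]
      exact Submodule.mem_top
    exact h3
  choose E hE0 hE using h2
  refine ⟨∏ i, E i, Finset.prod_pos fun i _ => hE0 i, ?_⟩
  refine (Module.finBasis K V).ext fun i => ?_
  obtain ⟨k, hk⟩ := Finset.dvd_prod_of_mem E (Finset.mem_univ i)
  rw [hk, pow_fix T (hE i), Module.End.one_apply]

theorem flag_eig (T : Module.End K V) (A B : Submodule K V) (hAB : finrank K A < finrank K B)
    (c : K) (h : ∀ v ∈ B, T v - c • v ∈ A) : T.HasEigenvalue c := by
  let f : B →ₗ[K] A := ((T - c • (1 : Module.End K V)).comp B.subtype).codRestrict A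
    (fun v => h v.1 v.2)
  have hk : LinearMap.ker f ≠ ⊥ := LinearMap.ker_ne_bot_of_finrank_lt hAB
  obtain ⟨v, hv, hv0⟩ := Submodule.exists_mem_ne_zero_of_ne_bot hk
  have h1 : T v.1 - c • v.1 = 0 := congrArg Subtype.val (LinearMap.mem_ker.1 hv)
  refine Module.End.hasEigenvalue_of_hasEigenvector (x := v.1) ⟨?_, ?_⟩
  · rw [Module.End.mem_eigenspace_iff]
    exact sub_eq_zero.1 h1
  · exact fun h2 => hv0 (Subtype.ext h2)

/-- restriction of a representation -/
def resRep {G : Type} [Group G] (ρ : G →* Module.End K V) (W : Submodule K V)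
    (h : ∀ y, ∀ v ∈ W, ρ y v ∈ W) : G →* Module.End K W where
  toFun y := (ρ y).restrict (h y)
  map_one' := LinearMap.ext fun v => Subtype.ext (by
    show ρ 1 v.1 = v.1
    rw [map_one, Module.End.one_apply])
  map_mul' a b := LinearMap.ext fun v => Subtype.ext (by
    show ρ (a * b) v.1 = ρ a (ρ b v.1)
    rw [map_mul, Module.End.mul_apply])

theorem finrank_gen (T : Module.End K V) {l₁ l₂ : K} (hne : l₁ ≠ l₂) (h1 : T.HasEigenvalue l₁)
    (h2 : T.HasEigenvalue l₂) (l : K) : finrank K (T.maxGenEigenspace l) < finrank K V := by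
  have key : ∀ l', l' ≠ l → T.HasEigenvalue l' →
      finrank K (T.maxGenEigenspace l) < finrank K V := by
    intro l' hl' he
    refine Submodule.finrank_lt ?_
    intro htop
    obtain ⟨v, hv, hv0⟩ := he.exists_hasEigenvector
    have h3 : v ∈ T.maxGenEigenspace l' := Module.End.eigenspace_le_maxGenEigenspace hv
    have h4 : v ∈ T.maxGenEigenspace l := by
      rw [htop]
      exact Submodule.mem_top
    have hd := Module.End.disjoint_genEigenspace T hl' ⊤ ⊤
    exact hv0 ((Submodule.disjoint_def.1 hd) v h3 h4)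
  by_cases h : l₁ = l
  · exact key l₂ (fun h3 => hne (h.trans h3.symm)) h2
  · exact key l₁ h h1

end

theorem nilp : S_TRI → S_CLO → S_GEN → S_UNI → S_MUL → S_NPD → S_NILP := by
  intro hTRI hCLO hGEN hUNI hMUL hNPD K _ _ m hm N _ ρ hl x
  haveI : Group.IsNilpotent N := Subgroup.nilpotent_iff_lowerCentralSeries.2 ⟨_, hl⟩
  obtain ⟨ρE, hρE⟩ : ∃ ρE : N →* Module.End K (Fin (m + 2) → K),
      ∀ g, ρE g = Matrix.toLin' (ρ g).val :=
    ⟨((Matrix.toLinAlgEquiv' : Matrix (Fin (m + 2)) (Fin (m + 2)) K ≃ₐ[K]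
      Module.End K (Fin (m + 2) → K)) : Matrix (Fin (m + 2)) (Fin (m + 2)) K →*
      Module.End K (Fin (m + 2) → K)).comp ((Units.coeHom _).comp ρ), fun g => rfl⟩
  have hn : finrank K (Fin (m + 2) → K) = m + 2 := Module.finrank_fin_fun K
  obtain ⟨k, hk, F, hF⟩ := hTRI K (Fin (m + 2) → K) N ρE
  have hF' := hCLO K (Fin (m + 2) → K) N ρE _ F hF
  obtain ⟨N', hN'⟩ : ∃ N' : Subgroup N, N' = Subgroup.closure (Set.range fun g : N => g ^ k) :=
    ⟨_, rfl⟩
  rw [← hN'] at hF'
  obtain ⟨ρ', hρ'⟩ : ∃ ρ' : N' →* Module.End K (Fin (m + 2) → K), ∀ g, ρ' g = ρE g.1 :=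
    ⟨ρE.comp N'.subtype, fun _ => rfl⟩
  have hFu : TriFlag ρ' Set.univ F := ⟨hF'.1, hF'.2.1, hF'.2.2.1, fun g _ i => by
    rw [hρ']
    exact hF'.2.2.2 g.1 g.2 i⟩
  have hl' := sub_lcs N' (m + 1) hl
  obtain ⟨y, hy⟩ : ∃ y : ℕ → N', ∀ i, (y i).1 = x i ^ k :=
    ⟨fun i => ⟨x i ^ k, by rw [hN']; exact Subgroup.subset_closure ⟨x i, rfl⟩⟩, fun _ => rfl⟩
  have hLC : (LC y m).1 = LC x m ^ (k ^ (m + 1)) := by
    rw [← hMUL N m hl x k]
    have h1 := lc_map N'.subtype y m
    have h2 : (fun i => N'.subtype (y i)) = fun i => x i ^ k := funext hy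
    rw [h2] at h1
    exact h1
  by_cases hA : ∃ z : N', ∃ l₁ l₂ : K, l₁ ≠ l₂ ∧ (ρ' z).HasEigenvalue l₁ ∧
      (ρ' z).HasEigenvalue l₂
  · obtain ⟨z, l₁, l₂, hne, h1, h2⟩ := hA
    obtain ⟨E, hE, hEE⟩ := exists_pow_fix (ρ' (LC y m)) (fun l => (ρ' z).maxGenEigenspace l)
      (Module.End.iSup_maxGenEigenspace_eq_top (ρ' z)) (fun l v hv => by
        have hfin : finrank K ((ρ' z).maxGenEigenspace l) ≤ m + 1 := by
          have h3 := finrank_gen (ρ' z) hne h1 h2 l
          omega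
        have hst : ∀ y : N', ∀ v ∈ (ρ' z).maxGenEigenspace l,
            ρ' y v ∈ (ρ' z).maxGenEigenspace l := fun y v hv =>
          hGEN K (Fin (m + 2) → K) N' ρ' F hFu z y l v hv
        obtain ⟨E, hE, h⟩ := hNPD K m hm _ N' (resRep ρ' _ hst) hl' hfin y
        refine ⟨E, hE, ?_⟩
        rw [← map_pow] at h
        have h4 : ρ' (LC y m ^ E) v = v := congrArg Subtype.val (LinearMap.congr_fun h ⟨v, hv⟩)
        rw [map_pow] at h4
        exact h4)
    refine ⟨k ^ (m + 1) * E, Nat.mul_pos (pow_pos hk _) hE, Or.inl ?_⟩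
    have h5 : ρE (LC x m ^ (k ^ (m + 1) * E)) = 1 := by
      rw [pow_mul, ← hLC, map_pow, ← hρ']
      exact hEE
    rw [hρE] at h5
    have h6 : (ρ (LC x m ^ (k ^ (m + 1) * E))).val = 1 := by
      refine Matrix.toLin'.injective ?_
      rw [h5, Matrix.toLin'_one]
      rfl
    rw [← map_pow]
    exact Units.ext h6
  · have hone : ∀ g : N', ∃ c : K, ∀ i, ∀ v ∈ F (i + 1), ρ' g v - c • v ∈ F i := by
      intro g
      have h1 := hFu.2.2.2 g (Set.mem_univ g)
      choose c hc using h1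
      refine ⟨c 0, fun i v hv => ?_⟩
      by_cases hi : i < m + 2
      · have he : ∀ j, j < m + 2 → (ρ' g).HasEigenvalue (c j) := fun j hj =>
          flag_eig (ρ' g) (F j) (F (j + 1)) (by
            rw [hFu.2.1 j (by omega), hFu.2.1 (j + 1) (by omega)]
            omega) (c j) (hc j)
        have h2 : c 0 = c i := by
          by_contra h3
          exact hA ⟨g, c 0, c i, h3, he 0 (by omega), he i hi⟩
        rw [h2]
        exact hc i v hv
      · have h3 : F i = ⊤ := by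
          rw [eq_top_iff, ← hFu.2.2.1]
          exact hFu.1 (by omega)
        rw [h3]
        exact Submodule.mem_top
    have hF0 : F 0 = ⊥ := by
      rw [← Submodule.finrank_eq_zero (R := K)]
      exact hFu.2.1 0 (Nat.zero_le _)
    have hU := hUNI K (Fin (m + 2) → K) N' ρ' F hFu.1 hF0 hFu.2.2.1 hone y m hm (m + 2)
    have hFtop : F (m + 2) = ⊤ := by
      have h := hFu.2.2.1
      rw [hn] at h
      exact h
    have hF1 : finrank K (F 1) = 1 := hFu.2.1 1 (by omega)
    obtain ⟨w, hw0, hw⟩ := finrank_eq_one_iff'.1 hF1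
    obtain ⟨M, hM⟩ : ∃ M : Matrix (Fin (m + 2)) (Fin (m + 2)) K,
      M = (ρ (LC x m ^ (k ^ (m + 1)))).val := ⟨_, rfl⟩
    have hMv : ∀ v : Fin (m + 2) → K, ∃ c : K, M *ᵥ v - v = c • w.1 := by
      intro v
      have h1 := hU v (by rw [hFtop]; exact Submodule.mem_top)
      have e1 : m + 2 - (m + 1) = 1 := by omega
      rw [e1, hρ', hLC, hρE, ← hM, Matrix.toLin'_apply] at h1
      obtain ⟨c, hc⟩ := hw ⟨_, h1⟩
      exact ⟨c, (congrArg Subtype.val hc).symm⟩
    choose φ hφ using fun j : Fin (m + 2) => hMv (Pi.single j 1)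
    have hMe : M = 1 + vecMulVec w.1 φ := by
      ext i j
      have h2 := congrFun (hφ j) i
      rw [Matrix.mulVec_single_one] at h2
      rw [Matrix.add_apply, Matrix.vecMulVec_apply, Matrix.one_apply]
      have h3 : M i j - (Pi.single j (1 : K) : Fin (m + 2) → K) i = φ j * w.1 i := h2
      rw [Pi.single_apply] at h3
      rw [mul_comm, ← h3]
      ring
    refine ⟨k ^ (m + 1), pow_pos hk _, ?_⟩
    by_cases hφ0 : φ = 0
    · left
      rw [← map_pow]
      refine Units.ext ?_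
      rw [← hM, hMe, hφ0]
      ext i j
      rw [Matrix.add_apply, Matrix.vecMulVec_apply, Pi.zero_apply, mul_zero, add_zero]
      rfl
    · right
      refine ⟨w.1, φ, fun h => hw0 (Subtype.ext h), hφ0, ?_⟩
      rw [← map_pow, ← hM, hMe]

end Pool.Agent.H401.GR
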